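import Pool.Agent.Q120.RC.Stm
import Pool.Agent.Q96.ME.ASL

/-!
# Project RC: job ASL
-/

set_option autoImplicit false

namespace Pool.Agent.Q198.RC

open Finset MeasureTheory Filter Pool.Agent.Q120.ET Pool.Agent.Q120.ME Pool.Agent.Q120.RC
open Pool.Agent.Q96.ME
open scoped Topology

/-! ### The harmonic rates, used for the scales -/

def U3 : Set ℕ := {n | 3 ≤ n}

noncomputable def p3 (n : ℕ) : ℝ := 1 / (n : ℝ)

theorem mass_succ (x : ℕ) : mass U3 p3 (x + 1) = mass U3 p3 x + (if 3 ≤ x then 1 / (x : ℝ) else 0) := by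
  classical
  rw [Pool.Agent.Q96.ME.mass_eq, Pool.Agent.Q96.ME.mass_eq, sum_range_succ]
  congr 1
  by_cases h : 3 ≤ x
  · rw [if_pos h, if_pos (show x ∈ U3 from h)]
    rfl
  · rw [if_neg h, if_neg (show x ∉ U3 from h)]

theorem mass_small {x : ℕ} (hx : x ≤ 3) : mass U3 p3 x = 0 := by
  classical
  rw [Pool.Agent.Q96.ME.mass_eq]
  refine sum_eq_zero (fun n hn => ?_)
  rw [mem_range] at hn
  rw [if_neg]
  intro h
  have h1 : 3 ≤ n := h
  omega

theorem mass_le_log {x : ℕ} (hx : 2 ≤ x) : mass U3 p3 (x + 1) ≤ Real.log x := by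
  induction x, hx using Nat.le_induction with
  | base =>
    rw [mass_small (by norm_num)]
    exact Real.log_nonneg (by norm_num)
  | succ x hx ih =>
    rw [mass_succ, if_pos (by omega)]
    have hx0 : (0 : ℝ) < x := by exact_mod_cast (by omega : 0 < x)
    have h1 := Real.one_sub_inv_le_log_of_pos (show (0 : ℝ) < ((x : ℝ) + 1) / x by positivity)
    rw [Real.log_div (by positivity) hx0.ne'] at h1
    have h2 : 1 - (((x : ℝ) + 1) / x)⁻¹ = 1 / ((x : ℝ) + 1) := by
      field_simp
      ring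
    rw [h2] at h1
    push_cast
    linarith

theorem mass_le_log' {x : ℕ} (hx : 3 ≤ x) : mass U3 p3 x ≤ Real.log x := by
  obtain ⟨z, rfl⟩ : ∃ z, x = z + 1 := ⟨x - 1, by omega⟩
  refine (mass_le_log (by omega)).trans (Real.log_le_log ?_ ?_)
  · exact_mod_cast (by omega : 0 < z)
  · exact_mod_cast (by omega : z ≤ z + 1)

theorem log_le_mass {x : ℕ} (hx : 3 ≤ x) : Real.log x - 2 ≤ mass U3 p3 x := by
  induction x, hx using Nat.le_induction with
  | base =>
    rw [mass_small le_rfl]
    have h1 := Real.log_le_sub_one_of_pos (show (0 : ℝ) < 3 by norm_num)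
    push_cast
    linarith
  | succ x hx ih =>
    rw [mass_succ, if_pos (by omega)]
    have hx0 : (0 : ℝ) < x := by exact_mod_cast (by omega : 0 < x)
    have h1 := Real.log_le_sub_one_of_pos (show (0 : ℝ) < ((x : ℝ) + 1) / x by positivity)
    rw [Real.log_div (by positivity) hx0.ne'] at h1
    have h2 : ((x : ℝ) + 1) / x - 1 = 1 / x := by
      field_simp
      ring
    rw [h2] at h1
    push_cast
    linarith

theorem log_tendsto : Tendsto (fun x : ℕ => Real.log x) atTop atTop := Real.tendsto_log_atTop.comp tendsto_natCast_atTop_atTop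

theorem rates3 : Rates U3 p3 where
  pos := by
    intro n hn
    have h1 : 3 ≤ n := hn
    have h2 : (0 : ℝ) < n := by exact_mod_cast (by omega : 0 < n)
    unfold p3
    positivity
  lt_one := by
    intro n hn
    have h1 : 3 ≤ n := hn
    have h2 : (1 : ℝ) < n := by exact_mod_cast (by omega : 1 < n)
    unfold p3
    rw [div_lt_one (by linarith)]
    exact h2
  small := by
    intro ε hε
    have h1 : Tendsto (fun n : ℕ => 1 / (n : ℝ)) atTop (𝓝 0) := tendsto_one_div_atTop_nhds_zero_nat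
    filter_upwards [h1.eventually (gt_mem_nhds hε)] with n hn _
    exact hn
  div := by
    have h1 : Tendsto (fun x : ℕ => Real.log x - 2) atTop atTop := tendsto_atTop_add_const_right _ _ log_tendsto
    refine tendsto_atTop_mono' _ ?_ h1
    filter_upwards [eventually_ge_atTop 3] with x hx
    exact log_le_mass hx

theorem not_conv {d : ℕ → ℝ} (hd0 : ∀ n, 0 ≤ d n) {C : ℝ} (hC : 0 < C)
    (hns : ¬ Summable (fun n : ℕ => d n / (n * Real.log n ^ 2))) : ¬ Conv U3 p3 (fun n => C * d n) := by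
  classical
  intro h
  apply hns
  unfold Conv at h
  refine Summable.of_norm_bounded_eventually_nat (h.mul_left (1 / C)) ?_
  filter_upwards [eventually_ge_atTop 3, rates3.div.eventually_gt_atTop 0] with n hn hm
  have hn0 : (0 : ℝ) < n := by exact_mod_cast (by omega : 0 < n)
  have hd := hd0 n
  rw [if_pos (show n ∈ U3 from hn), Real.norm_eq_abs, abs_of_nonneg (by positivity)]
  have h1 := mass_le_log' hn
  have h2 : mass U3 p3 n ^ 2 ≤ Real.log n ^ 2 := pow_le_pow_left₀ hm.le h1 2
  have h3 : 1 / C * (p3 n * (C * d n) / mass U3 p3 n ^ 2) = d n / (n * mass U3 p3 n ^ 2) := by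
    unfold p3
    field_simp
  rw [h3]
  refine div_le_div_of_nonneg_left hd (by positivity) ?_
  exact mul_le_mul_of_nonneg_left h2 hn0.le

/-- The scales. -/
theorem scales3 : ∃ y : ℕ → ℕ, StrictMono y ∧ (∀ j, (2 : ℝ) ^ j ≤ mass U3 p3 (y j)) ∧
    (∀ j, mass U3 p3 (y j) ≤ 2 ^ j + 1) ∧ (∀ j, 3 ≤ y j) ∧
    (∀ j, (2 : ℝ) ^ j ≤ Real.log (y j)) ∧ ∀ j, Real.log (y j) ≤ 2 ^ j + 3 := by
  obtain ⟨y, h1, h2, h3⟩ := scales rates3
  have h4 : ∀ j, 3 ≤ y j := by
    intro j
    by_contra h
    have h5 := h2 j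
    rw [mass_small (by omega)] at h5
    have : (0 : ℝ) < 2 ^ j := by positivity
    linarith
  refine ⟨y, h1, h2, h3, h4, fun j => (h2 j).trans (mass_le_log' (h4 j)), fun j => ?_⟩
  have h5 := log_le_mass (h4 j)
  have h6 := h3 j
  linarith

/-! ### The deterministic part -/

/-- A window without elements, longer than the natural runs after it: at most one record gap. -/
theorem rec_step {S : Set ℕ} {a b g : ℕ} {h : ℕ → ℕ} (hwin : ∀ m, a ≤ m → m < a + g → m ∉ S)
    (hh : ∀ n, n < b → h n ≤ g) (hnat : ∀ n, a + g + h n ≤ n → n < b → ∃ m, n - h n ≤ m ∧ m < n ∧ m ∈ S) :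
    recS S b ≤ recS S a + 1 := by
  classical
  have key : ∀ n, a ≤ n → n < b → n ∈ S → up S n → ∀ m, a ≤ m → m < n → m ∉ S := by
    intro n h1 h2 h3 h4
    have h5 : a + g ≤ n := by
      by_contra hcon
      exact hwin n h1 (by omega) h3
    have h6 : g ≤ mx S n := le_mx_iff.2 ⟨a, h5, fun j h7 h8 => hwin j h7 h8⟩
    have h7 := hh n h2
    have h8 : n < a + g + h n := by
      by_contra hcon
      obtain ⟨m, h9, h10, h11⟩ := hnat n (by omega) h2
      exact up_run h4 m (by omega) h10 h11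
    intro m h9 h10
    by_cases h11 : m < a + g
    · exact hwin m h9 h11
    · exact up_run h4 m (by omega) h10
  have h1 : (range b).filter (fun n => n ∈ S ∧ up S n) ⊆
      (range a).filter (fun n => n ∈ S ∧ up S n) ∪ (range b).filter (fun n => a ≤ n ∧ n ∈ S ∧ up S n) := by
    intro n hn
    rw [mem_filter, mem_range] at hn
    rw [mem_union, mem_filter, mem_filter, mem_range, mem_range]
    by_cases h : n < a
    · exact Or.inl ⟨h, hn.2⟩
    · exact Or.inr ⟨hn.1, by omega, hn.2⟩
  have h2 : ((range b).filter (fun n => a ≤ n ∧ n ∈ S ∧ up S n)).card ≤ 1 := by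
    rw [card_le_one]
    intro n hn n' hn'
    rw [mem_filter, mem_range] at hn hn'
    by_contra hne
    rcases lt_or_gt_of_ne hne with h | h
    · exact key n' hn'.2.1 hn'.1 hn'.2.2.1 hn'.2.2.2 n hn.2.1 h hn.2.2.1
    · exact key n hn.2.1 hn.1 hn.2.2.1 hn.2.2.2 n' hn'.2.1 h hn'.2.2.1
  unfold recS
  exact (card_le_card h1).trans ((card_union_le _ _).trans (Nat.add_le_add_left h2 _))

/-! ### Sizes -/

/-- The length of the windows. -/
noncomputable def gw (κ c : ℝ) (y : ℕ → ℕ) (j : ℕ) : ℕ := ⌈3 * b0 κ c (y (j + 1))⌉₊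

theorem b0_nonneg {κ c : ℝ} (hc : 0 < c) {n : ℕ} : 0 ≤ b0 κ c n := by
  unfold b0
  have : (0 : ℝ) ≤ Real.log n := Real.log_natCast_nonneg n
  positivity

theorem b0_mono {κ c : ℝ} (hκ : 0 < κ) (hc : 0 < c) : Monotone (b0 κ c) := by
  intro m n h
  unfold b0
  refine div_le_div_of_nonneg_right ?_ hc.le
  refine Real.rpow_le_rpow (Real.log_natCast_nonneg m) ?_ (by linarith)
  rcases Nat.eq_zero_or_pos m with h1 | h1
  · rw [h1]
    simp only [Nat.cast_zero, Real.log_zero]
    exact Real.log_natCast_nonneg n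
  · exact Real.log_le_log (by exact_mod_cast h1) (by exact_mod_cast h)

/-- The windows are shorter than the blocks. -/
theorem gw_lt {κ c : ℝ} (hκ : 0 < κ) (hc : 0 < c) {y : ℕ → ℕ}
    (hy3 : ∀ j, 3 ≤ y j) (hl1 : ∀ j, (2 : ℝ) ^ j ≤ Real.log (y j)) (hl2 : ∀ j, Real.log (y j) ≤ 2 ^ j + 3) :
    ∀ᶠ j : ℕ in atTop, y j + gw κ c y j ≤ y (j + 1) := by
  -- `b0 (y (j + 1))` is small against `y (j + 1)`
  have h1 : Tendsto (fun x : ℝ => Real.log x ^ (κ + 1) / x) atTop (𝓝 0) := by
    have h2 := isLittleO_log_rpow_rpow_atTop (κ + 1) (show (0 : ℝ) < 1 by norm_num)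
    have h3 := h2.tendsto_div_nhds_zero
    simpa using h3
  have hyt : Tendsto y atTop atTop := by
    refine tendsto_atTop_atTop.2 (fun N => ?_)
    obtain ⟨J, hJ⟩ := pow_unbounded_of_one_lt (N : ℝ) (show (1 : ℝ) < 2 by norm_num)
    refine ⟨J, fun j hj => ?_⟩
    have h2 : (2 : ℝ) ^ J ≤ 2 ^ j := pow_le_pow_right₀ (by norm_num) hj
    have h3 := hl1 j
    have hy0 : (0 : ℝ) < y j := by exact_mod_cast (by have := hy3 j; omega : 0 < y j)
    have h4 := Real.log_le_sub_one_of_pos hy0
    have h5 : (N : ℝ) < y j := by linarith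
    exact_mod_cast h5.le
  have h2 : Tendsto (fun j : ℕ => 3 / c * (Real.log (y (j + 1)) ^ (κ + 1) / (y (j + 1) : ℝ))) atTop (𝓝 (3 / c * 0)) :=
    (h1.comp (tendsto_natCast_atTop_atTop.comp (hyt.comp (tendsto_add_atTop_nat 1)))).const_mul (3 / c)
  rw [mul_zero] at h2
  filter_upwards [h2.eventually (gt_mem_nhds (show (0 : ℝ) < 1 / 4 by norm_num)), eventually_ge_atTop 3] with j h3 h4
  have hy0 : (0 : ℝ) < y (j + 1) := by exact_mod_cast (by have := hy3 (j + 1); omega : 0 < y (j + 1))
  have hy0' : (0 : ℝ) < y j := by exact_mod_cast (by have := hy3 j; omega : 0 < y j)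
  have h5 : 3 * b0 κ c (y (j + 1)) ≤ 1 / 4 * y (j + 1) := by
    have h6 : 3 / c * (Real.log (y (j + 1)) ^ (κ + 1) / (y (j + 1) : ℝ)) = 3 * b0 κ c (y (j + 1)) / y (j + 1) := by
      unfold b0
      field_simp
    rw [h6, div_lt_iff₀ hy0] at h3
    exact h3.le
  have h6 : (gw κ c y j : ℝ) < 3 * b0 κ c (y (j + 1)) + 1 :=
    Nat.ceil_lt_add_one (mul_nonneg (by norm_num) (b0_nonneg hc))
  -- `4 y j ≤ y (j + 1)`
  have h7 : (4 : ℝ) * y j ≤ y (j + 1) := by
    rw [← Real.log_le_log_iff (by positivity) hy0, Real.log_mul (by norm_num) hy0'.ne']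
    have h8 := hl2 j
    have h9 := hl1 (j + 1)
    have h10 : (8 : ℝ) ≤ 2 ^ j := by
      calc (8 : ℝ) = 2 ^ 3 := by norm_num
        _ ≤ 2 ^ j := pow_le_pow_right₀ (by norm_num) h4
    have h11 : Real.log 4 ≤ 3 := by
      have := Real.log_le_sub_one_of_pos (show (0 : ℝ) < 4 by norm_num)
      linarith
    rw [pow_succ] at h9
    linarith
  have h8 : (4 : ℝ) ≤ y (j + 1) := by
    have : (1 : ℝ) ≤ y j := by exact_mod_cast (by have := hy3 j; omega : 1 ≤ y j)
    linarith
  have h9 : ((y j + gw κ c y j : ℕ) : ℝ) ≤ (y (j + 1) : ℝ) := by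
    push_cast
    linarith
  exact_mod_cast h9

/-- The entropy of one window. -/
theorem win_ent {κ c : ℝ} (hκ : 0 < κ) (hc : 0 < c) {p : ℕ → ℝ} (hp : Mod κ c p) {y : ℕ → ℕ} (hy : StrictMono y)
    (hl1 : ∀ j, (2 : ℝ) ^ j ≤ Real.log (y j)) (hl2 : ∀ j, Real.log (y j) ≤ 2 ^ j + 3) :
    ∀ᶠ j : ℕ in atTop, 2 * p (y j) * gw κ c y j ≤ 64 * 3 ^ (κ + 1) * 2 ^ j := by
  have h1 : ∀ᶠ n : ℕ in atTop, p n * Real.log n ^ κ < 2 * c :=
    hp.lim.eventually (gt_mem_nhds (by linarith))
  have h2 : ∀ᶠ j : ℕ in atTop, p (y j) * Real.log (y j) ^ κ < 2 * c := hy.tendsto_atTop.eventually h1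
  -- `b0 ≥ 1` eventually
  have h3 : Tendsto (fun j : ℕ => (2 : ℝ) ^ (j + 1)) atTop atTop :=
    (tendsto_pow_atTop_atTop_of_one_lt (by norm_num)).comp (tendsto_add_atTop_nat 1)
  filter_upwards [h2, h3.eventually_ge_atTop (max 1 c), eventually_ge_atTop 2] with j h4 h5 h6
  have hj1 : (4 : ℝ) ≤ 2 ^ j := by
    calc (4 : ℝ) = 2 ^ 2 := by norm_num
      _ ≤ 2 ^ j := pow_le_pow_right₀ (by norm_num) h6
  have hL1 := hl1 j
  have hL2 := hl2 j
  have hL3 := hl1 (j + 1)
  have hL4 := hl2 (j + 1)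
  have hLpos : 0 < Real.log (y j) := by linarith
  have hLpos1 : 0 < Real.log (y (j + 1)) := by
    have : (0 : ℝ) < 2 ^ (j + 1) := by positivity
    linarith
  have hLL : Real.log (y (j + 1)) ≤ 3 * Real.log (y j) := by
    rw [pow_succ] at hL4
    linarith
  -- `b0 (y (j + 1)) ≥ 1`
  have hb1 : 1 ≤ b0 κ c (y (j + 1)) := by
    unfold b0
    rw [le_div_iff₀ hc, one_mul]
    have h7 : c ≤ Real.log (y (j + 1)) := ((le_max_right _ _).trans h5).trans hL3
    have h8 : 1 ≤ Real.log (y (j + 1)) := ((le_max_left _ _).trans h5).trans hL3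
    calc c ≤ Real.log (y (j + 1)) := h7
      _ = Real.log (y (j + 1)) ^ (1 : ℝ) := (Real.rpow_one _).symm
      _ ≤ Real.log (y (j + 1)) ^ (κ + 1) := Real.rpow_le_rpow_of_exponent_le h8 (by linarith)
  have hg : (gw κ c y j : ℝ) ≤ 4 * b0 κ c (y (j + 1)) := by
    have h7 : (gw κ c y j : ℝ) < 3 * b0 κ c (y (j + 1)) + 1 :=
      Nat.ceil_lt_add_one (mul_nonneg (by norm_num) (b0_nonneg hc))
    linarith
  have hb2 : b0 κ c (y (j + 1)) ≤ 3 ^ (κ + 1) * (Real.log (y j) * Real.log (y j) ^ κ) / c := by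
    unfold b0
    refine div_le_div_of_nonneg_right ?_ hc.le
    calc Real.log (y (j + 1)) ^ (κ + 1) ≤ (3 * Real.log (y j)) ^ (κ + 1) :=
          Real.rpow_le_rpow hLpos1.le hLL (by linarith)
      _ = 3 ^ (κ + 1) * Real.log (y j) ^ (κ + 1) := Real.mul_rpow (by norm_num) hLpos.le
      _ = _ := by rw [Real.rpow_add hLpos, Real.rpow_one, mul_comm (Real.log (y j))]
  have hp0 := hp.pos (y j)
  calc 2 * p (y j) * gw κ c y j ≤ 2 * p (y j) * (4 * (3 ^ (κ + 1) * (Real.log (y j) * Real.log (y j) ^ κ) / c)) := by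
        refine mul_le_mul_of_nonneg_left ?_ (by positivity)
        linarith
    _ = 8 * 3 ^ (κ + 1) * Real.log (y j) / c * (p (y j) * Real.log (y j) ^ κ) := by ring
    _ ≤ 8 * 3 ^ (κ + 1) * Real.log (y j) / c * (2 * c) :=
        mul_le_mul_of_nonneg_left h4.le (by positivity)
    _ = 16 * 3 ^ (κ + 1) * Real.log (y j) := by field_simp; ring
    _ ≤ 16 * 3 ^ (κ + 1) * (4 * 2 ^ j) := by
        refine mul_le_mul_of_nonneg_left ?_ (by positivity)
        linarith
    _ = _ := by ring

/-- The natural runs. -/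
noncomputable def hn (κ c : ℝ) (n : ℕ) : ℕ := ⌈2 * b0 κ c n⌉₊

theorem hn_le_gw {κ c : ℝ} (hκ : 0 < κ) (hc : 0 < c) {y : ℕ → ℕ} {n j : ℕ} (h : n < y (j + 1)) :
    hn κ c n ≤ gw κ c y j := by
  unfold hn gw
  refine Nat.ceil_mono ?_
  have h1 := b0_mono hκ hc h.le
  have h2 := b0_nonneg (κ := κ) hc (n := y (j + 1))
  linarith

theorem nat_prob {κ c : ℝ} (hκ : 0 < κ) (hc : 0 < c) {p : ℕ → ℝ} (hp : Mod κ c p) :
    ∀ᶠ n : ℕ in atTop, (1 - p n) ^ hn κ c n ≤ (n : ℝ) ^ (-(3 / 2 : ℝ)) := by
  have h1 : ∀ᶠ n : ℕ in atTop, 3 / 4 * c < p n * Real.log n ^ κ :=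
    hp.lim.eventually (lt_mem_nhds (by linarith))
  filter_upwards [h1, eventually_ge_atTop 3] with n h2 h3
  have hn0 : (0 : ℝ) < n := by exact_mod_cast (by omega : 0 < n)
  have hlog : 0 < Real.log n := Real.log_pos (by exact_mod_cast (by omega : 1 < n))
  have h4 : 1 - p n ≤ Real.exp (-p n) := Real.one_sub_le_exp_neg (p n)
  have h5 : 0 ≤ 1 - p n := by linarith [hp.lt_one n]
  refine (pow_le_pow_left₀ h5 h4 _).trans ?_
  rw [← Real.exp_nat_mul, Real.rpow_def_of_pos hn0, Real.exp_le_exp]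
  have h6 : 2 * b0 κ c n ≤ hn κ c n := Nat.le_ceil _
  have h7 : 2 * b0 κ c n * p n ≤ hn κ c n * p n := mul_le_mul_of_nonneg_right h6 (hp.pos n).le
  have h8 : 2 * b0 κ c n * p n = 2 * Real.log n / c * (p n * Real.log n ^ κ) := by
    unfold b0
    rw [Real.rpow_add hlog, Real.rpow_one]
    ring
  have h9 : 2 * Real.log n / c * (3 / 4 * c) ≤ 2 * Real.log n / c * (p n * Real.log n ^ κ) :=
    mul_le_mul_of_nonneg_left h2.le (by positivity)
  have h10 : 2 * Real.log n / c * (3 / 4 * c) = 3 / 2 * Real.log n := by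
    field_simp
    ring
  nlinarith

/-! ### The entropy of the construction -/

/-- The terms of the entropy bound. -/
noncomputable def entG (p : ℕ → ℝ) (q : ℕ → ℝ) (y g : ℕ → ℕ) (n : ℕ) : ℝ :=
  if n < y (bl y n) + g (bl y n) then 2 * q (bl y n) * p n else 0

theorem ent_bound3 {p q d : ℕ → ℝ} {y g : ℕ → ℕ} (hp : ∀ n, 0 ≤ p n) (hanti : Antitone p) (hy : StrictMono y) (hd : Monotone d)
    (hd0 : ∀ n, 0 ≤ d n) (hq0 : ∀ j, 0 ≤ q j) (hq00 : q 0 = 0)
    (hq : ∀ j, q (j + 1) * (2 * p (y (j + 1)) * g (j + 1)) ≤ d (y (j + 1)) - d (y j)) (x : ℕ) :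
    ∑ n ∈ range x, entG p q y g n ≤ d x := by
  classical
  have hg0 : ∀ n, 0 ≤ entG p q y g n := fun n => by
    unfold entG
    split_ifs
    · have h1 := hq0 (bl y n)
      have h2 := hp n
      positivity
    · exact le_rfl
  have hA0 : ∑ n ∈ range (y 1), entG p q y g n = 0 := by
    refine sum_eq_zero (fun n hn => ?_)
    rw [mem_range] at hn
    have h1 : bl y n = 0 := bl_eq hy (fun h => absurd rfl h) (by simpa using hn)
    unfold entG
    rw [h1, hq00]
    simp
  have hA : ∀ j : ℕ, ∑ n ∈ range (y (j + 1)), entG p q y g n ≤ d (y j) := by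
    intro j
    induction j with
    | zero =>
      rw [zero_add, hA0]
      exact hd0 _
    | succ j ih =>
      rw [← sum_range_add_sum_Ico _ (hy (Nat.lt_succ_self (j + 1))).le]
      have h1 : ∑ n ∈ Ico (y (j + 1)) (y (j + 1 + 1)), entG p q y g n ≤
          ∑ n ∈ Ico (y (j + 1)) (y (j + 1) + g (j + 1)), 2 * q (j + 1) * p (y (j + 1)) := by
        have h2 : ∀ n ∈ Ico (y (j + 1)) (y (j + 1 + 1)), entG p q y g n ≤
            if n < y (j + 1) + g (j + 1) then 2 * q (j + 1) * p (y (j + 1)) else 0 := by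
          intro n hn
          rw [mem_Ico] at hn
          have h3 : bl y n = j + 1 := bl_eq hy (fun _ => hn.1) hn.2
          unfold entG
          rw [h3]
          split_ifs with h4
          · refine mul_le_mul_of_nonneg_left (hanti hn.1) ?_
            have := hq0 (j + 1)
            positivity
          · exact le_rfl
        refine (sum_le_sum h2).trans ?_
        rw [← sum_filter]
        refine sum_le_sum_of_subset_of_nonneg ?_ (fun n _ _ => ?_)
        · intro n hn
          rw [mem_filter, mem_Ico] at hn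
          rw [mem_Ico]
          exact ⟨hn.1.1, hn.2⟩
        · have h4 := hq0 (j + 1)
          have h5 := hp (y (j + 1))
          positivity
      rw [sum_const, Nat.card_Ico, nsmul_eq_mul, Nat.add_sub_cancel_left] at h1
      have h2 := hq j
      have h3 : (g (j + 1) : ℝ) * (2 * q (j + 1) * p (y (j + 1))) = q (j + 1) * (2 * p (y (j + 1)) * g (j + 1)) := by ring
      rw [Nat.succ_eq_add_one]
      linarith
  have hle : ∑ n ∈ range x, entG p q y g n ≤ ∑ n ∈ range (y (bl y x + 1)), entG p q y g n :=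
    sum_le_sum_of_subset_of_nonneg (range_mono (lt_bl hy x).le) (fun n _ _ => hg0 n)
  by_cases h0 : bl y x = 0
  · rw [h0, zero_add, hA0] at hle
    exact hle.trans (hd0 x)
  · exact hle.trans ((hA _).trans (hd (bl_le h0)))

/-- Job ASL. -/
theorem t_ASL (hCON : J_CON) (hENM : J_ENM) : Pool.Agent.Q120.RC.J_ASL := by
  classical
  intro κ c p d hκ hc hp hd hd0 hns
  obtain ⟨y, hy, hy1, hy2, hy3, hl1, hl2⟩ := scales3
  have hyt : Tendsto y atTop atTop := hy.tendsto_atTop
  -- the constant
  obtain ⟨C, hC⟩ : ∃ C : ℝ, C = 64 * 3 ^ (κ + 1) := ⟨_, rfl⟩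
  have hC0 : 0 < C := by
    rw [hC]
    positivity
  -- the first block used
  have hpz : Tendsto p atTop (𝓝 0) := by
    have h1 : Tendsto (fun n : ℕ => (Real.log n ^ κ)⁻¹) atTop (𝓝 0) :=
      tendsto_inv_atTop_zero.comp ((tendsto_rpow_atTop hκ).comp log_tendsto)
    have h2 := hp.lim.mul h1
    rw [mul_zero] at h2
    refine h2.congr' ?_
    filter_upwards [log_tendsto.eventually_gt_atTop 0] with n hn
    have : 0 < Real.log n ^ κ := Real.rpow_pos_of_pos hn κ
    field_simp
  obtain ⟨J, hJ1, hJ2, hJ3⟩ : ∃ J : ℕ, 1 ≤ J ∧ (∀ n, y J ≤ n → p n ≤ 1 / 2) ∧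
      ∀ j, J ≤ j → 2 * p (y j) * gw κ c y j ≤ C * 2 ^ j := by
    obtain ⟨N, hN⟩ := eventually_atTop.1 (hpz.eventually (gt_mem_nhds (show (0 : ℝ) < 1 / 2 by norm_num)))
    obtain ⟨M, hM⟩ := eventually_atTop.1 (win_ent hκ hc hp hy hl1 hl2)
    refine ⟨N + M + 1, by omega, fun n h => (hN n ?_).le, fun j hj => ?_⟩
    · have := hy.le_apply (x := N + M + 1)
      omega
    · rw [hC]
      exact hM j (by omega)
  -- the scaled bound
  obtain ⟨D, hD⟩ : ∃ D : ℕ → ℝ, D = fun n => 4 / C * d n := ⟨_, rfl⟩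
  have hDm : Monotone D := by
    intro a b h
    rw [hD]
    exact mul_le_mul_of_nonneg_left (hd h) (by positivity)
  have hD0 : ∀ n, 0 ≤ D n := by
    intro n
    rw [hD]
    have := hd0 n
    positivity
  have hDc : ¬ Conv U3 p3 D := by
    rw [hD]
    exact not_conv hd0 (by positivity) hns
  obtain ⟨q, hq⟩ : ∃ q : ℕ → ℝ, q = qq D y J := ⟨_, rfl⟩
  have hq0 : ∀ j, 0 ≤ q j := fun j => by
    rw [hq]
    exact qq_nonneg hDm hy J j
  have hq1 : ∀ j, q j ≤ 1 := fun j => by
    rw [hq]
    exact qq_le_one J j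
  have hqs : ¬ Summable q := by
    rw [hq]
    exact not_summable_qq rates3 hDm hD0 hDc hy hy1 hy2 J
  have hqJ : ∀ j, j < J → q j = 0 := by
    intro j hj
    rw [hq]
    unfold qq
    rw [if_neg (by omega)]
  have hqe : ∀ j, q (j + 1) * (2 * p (y (j + 1)) * gw κ c y (j + 1)) ≤ d (y (j + 1)) - d (y j) := by
    intro j
    by_cases hj : J ≤ j + 1
    · have h1 := qq_le (J := J) (j := j + 1) hDm hy
      rw [← hq, Nat.add_sub_cancel, hD] at h1
      have h2 : q (j + 1) * (2 * p (y (j + 1)) * gw κ c y (j + 1)) ≤ q (j + 1) * (C * 2 ^ (j + 1)) :=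
        mul_le_mul_of_nonneg_left (hJ3 _ hj) (hq0 _)
      have h3 : q (j + 1) * (C * 2 ^ (j + 1)) = C / 4 * (q (j + 1) * (4 * 2 ^ (j + 1))) := by ring
      have h4 : C / 4 * (q (j + 1) * (4 * 2 ^ (j + 1))) ≤ C / 4 * (4 / C * d (y (j + 1)) - 4 / C * d (y j)) :=
        mul_le_mul_of_nonneg_left h1 (by positivity)
      have h5 : C / 4 * (4 / C * d (y (j + 1)) - 4 / C * d (y j)) = d (y (j + 1)) - d (y j) := by
        field_simp
      linarith
    · rw [hqJ _ (by omega), zero_mul]
      have := hd (hy.monotone (Nat.le_succ j))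
      rw [Nat.succ_eq_add_one] at this
      linarith
  -- the switches
  obtain ⟨X, _, ν, _, Ξ, π', hX⟩ := hCON Unit (Measure.dirac ()) (fun _ => q)
    (fun n => measurable_const) (fun _ n => ⟨hq0 n, hq1 n⟩)
  have hΞlaw : ∀ F T : Finset ℕ, ν.real {x | ∀ n ∈ F, (n ∈ Ξ x ↔ n ∈ T)} = bern q F T := by
    intro F T
    have h1 := hX.law F T Set.univ MeasurableSet.univ
    simpa using h1
  have hΞ1 : ∀ j, ν.real {x | j ∈ Ξ x} = q j := by
    intro j
    have h1 := hΞlaw {j} {j}
    simpa [bern] using h1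
  -- the mixture
  obtain ⟨win, hwin⟩ : ∃ win : ℕ → Prop, win = fun n => n < y (bl y n) + gw κ c y (bl y n) := ⟨_, rfl⟩
  obtain ⟨r, hr⟩ : ∃ r : X → ℕ → ℝ, r = fun x n => if win n ∧ bl y n ∈ Ξ x then 0 else p n := ⟨_, rfl⟩
  have hrm : ∀ n, Measurable (fun x => r x n) := by
    intro n
    by_cases hn : win n
    · have h1 : (fun x => r x n) = fun x => if bl y n ∈ Ξ x then 0 else p n := by
        ext x
        simp only [hr]
        by_cases h : bl y n ∈ Ξ x
        · rw [if_pos ⟨hn, h⟩, if_pos h]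
        · rw [if_neg (fun h' => h h'.2), if_neg h]
      rw [h1]
      exact Measurable.ite (hX.rand _) measurable_const measurable_const
    · have h1 : (fun x => r x n) = fun _ => p n := by
        ext x
        simp only [hr]
        rw [if_neg (fun h' => hn h'.1)]
      rw [h1]
      exact measurable_const
  have hr01 : ∀ x n, 0 ≤ r x n ∧ r x n ≤ 1 := by
    intro x n
    simp only [hr]
    split_ifs with h
    · exact ⟨le_rfl, zero_le_one⟩
    · exact ⟨(hp.pos n).le, (hp.lt_one n).le⟩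
  obtain ⟨Ω, _, μ, _, A, π, hM⟩ := hCON X ν r hrm hr01
  refine ⟨Ω, inferInstance, μ, inferInstance, A, hM.rand, Eventually.of_forall (fun x => ?_), ?_⟩
  · -- the entropy
    obtain ⟨-, h1⟩ := hENM X ν r hrm hr01 Ω μ A π hM p (range x) (fun n _ => ⟨hp.pos n, hp.lt_one n⟩)
    refine h1.trans (le_trans ?_ (ent_bound3 (fun n => (hp.pos n).le) hp.anti hy hd hd0 hq0 (hqJ 0 (by omega)) hqe x))
    have h2 : ∀ n ∈ range x, ∀ z : X, kl (r z n) (p n) =
        ({z | win n ∧ bl y n ∈ Ξ z} : Set X).indicator (fun _ => -Real.log (1 - p n)) z := by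
      intro n _ z
      by_cases h : win n ∧ bl y n ∈ Ξ z
      · rw [Set.indicator_of_mem (show z ∈ {z | win n ∧ bl y n ∈ Ξ z} from h)]
        have : r z n = 0 := by
          simp only [hr]
          rw [if_pos h]
        rw [this, kl_zero]
      · rw [Set.indicator_of_notMem (show z ∉ {z | win n ∧ bl y n ∈ Ξ z} from h)]
        have : r z n = p n := by
          simp only [hr]
          rw [if_neg h]
        rw [this, kl_self (hp.pos n) (hp.lt_one n)]
    have hms : ∀ n, MeasurableSet {z | win n ∧ bl y n ∈ Ξ z} := by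
      intro n
      by_cases hn : win n
      · have : {z | win n ∧ bl y n ∈ Ξ z} = {z | bl y n ∈ Ξ z} := by
          ext z
          simp [hn]
        rw [this]
        exact hX.rand _
      · have : {z | win n ∧ bl y n ∈ Ξ z} = ∅ := by
          ext z
          simp [hn]
        rw [this]
        exact MeasurableSet.empty
    have h3 : ∫ z, ∑ n ∈ range x, kl (r z n) (p n) ∂ν =
        ∑ n ∈ range x, (if win n then q (bl y n) else 0) * -Real.log (1 - p n) := by
      have h4 : ∀ z, ∑ n ∈ range x, kl (r z n) (p n) = ∑ n ∈ range x,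
          ({z | win n ∧ bl y n ∈ Ξ z} : Set X).indicator (fun _ => -Real.log (1 - p n)) z := fun z =>
        sum_congr rfl (fun n hn => h2 n hn z)
      simp only [h4]
      rw [integral_finsetSum _ (fun n _ => (integrable_const _).indicator (hms _))]
      refine sum_congr rfl (fun n _ => ?_)
      rw [integral_indicator (hms _), setIntegral_const, smul_eq_mul]
      congr 1
      split_ifs with hn
      · have : {z | win n ∧ bl y n ∈ Ξ z} = {z | bl y n ∈ Ξ z} := by
          ext z
          simp [hn]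
        rw [this, hΞ1]
      · have : {z | win n ∧ bl y n ∈ Ξ z} = ∅ := by
          ext z
          simp [hn]
        rw [this]
        simp
    rw [h3]
    refine sum_le_sum (fun n _ => ?_)
    unfold entG
    by_cases hn : win n
    · have hn' : n < y (bl y n) + gw κ c y (bl y n) := by
        rw [hwin] at hn
        exact hn
      rw [if_pos hn, if_pos hn']
      by_cases hb : J ≤ bl y n
      · have h5 : p n ≤ 1 / 2 := hJ2 n ((hy.monotone hb).trans (bl_le (by omega)))
        have h6 := neg_log_le (hp.pos n) h5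
        have h7 := mul_le_mul_of_nonneg_left h6 (hq0 (bl y n))
        linarith
      · rw [hqJ _ (by omega)]
        simp
    · have hn' : ¬ n < y (bl y n) + gw κ c y (bl y n) := by
        rw [hwin] at hn
        exact hn
      rw [if_neg hn, if_neg hn', zero_mul]
  · -- infinitely many switches
    have hinf : ∀ᵐ x ∂ν, ∃ᶠ j : ℕ in atTop, j ∈ Ξ x := by
      have h1 : ProbabilityTheory.iIndepSet (fun j => {x | j ∈ Ξ x}) ν := by
        rw [ProbabilityTheory.iIndepSet_iff_meas_biInter (fun j => hX.rand j)]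
        intro S
        have h2 := hΞlaw S S
        have h3 : {x | ∀ n ∈ S, (n ∈ Ξ x ↔ n ∈ S)} = ⋂ i ∈ S, {x | i ∈ Ξ x} := by
          ext x
          simp only [Set.mem_ofPred_eq, Set.mem_iInter]
          exact forall₂_congr (fun n hn => by simp [hn])
        rw [h3] at h2
        have h4 : bern q S S = ∏ i ∈ S, ν.real {x | i ∈ Ξ x} := by
          unfold bern
          refine prod_congr rfl (fun n hn => ?_)
          rw [if_pos hn, hΞ1]
        rw [h4] at h2
        have h5 := congrArg ENNReal.ofReal h2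
        rw [Measure.real, ENNReal.ofReal_toReal (measure_ne_top _ _),
          ENNReal.ofReal_prod_of_nonneg (fun i _ => measureReal_nonneg)] at h5
        rw [h5]
        refine prod_congr rfl (fun i _ => ?_)
        rw [Measure.real, ENNReal.ofReal_toReal (measure_ne_top _ _)]
      have h2 : ∑' j : ℕ, ν {x | j ∈ Ξ x} = ⊤ := by
        by_contra hcon
        apply hqs
        have h3 := ENNReal.summable_toReal hcon
        refine h3.congr (fun j => ?_)
        exact hΞ1 j
      have h3 := ProbabilityTheory.measure_limsup_eq_one (fun j => hX.rand j) h1 h2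
      have h4 : MeasurableSet (limsup (fun j => {x | j ∈ Ξ x}) atTop) :=
        MeasurableSet.measurableSet_limsup (fun j => hX.rand j)
      have h5 := (mem_ae_iff_prob_eq_one h4).2 h3
      filter_upwards [h5] with x hx
      rw [mem_limsup_iff_frequently_mem] at hx
      exact hx
    have hinf' : ∀ᵐ ω ∂μ, ∃ᶠ j : ℕ in atTop, j ∈ Ξ (π ω) := by
      have h : ∀ᵐ x ∂(μ.map π), ∃ᶠ j : ℕ in atTop, j ∈ Ξ x := by
        rw [hM.map]
        exact hinf
      exact ae_of_ae_map hM.meas.aemeasurable h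
    -- the windows have no elements
    have hnull : ∀ᵐ ω ∂μ, ∀ n, n ∈ A ω → win n → bl y n ∉ Ξ (π ω) := by
      rw [ae_all_iff]
      intro n
      by_cases hn : win n
      · have h1 := law_one hM n {x | bl y n ∈ Ξ x} (hX.rand _)
        have h2 : ∫ x in {x | bl y n ∈ Ξ x}, r x n ∂ν = 0 := by
          rw [setIntegral_congr_fun (g := fun _ => (0 : ℝ)) (hX.rand _)]
          · simp
          · intro x hx
            simp only [hr]
            exact if_pos ⟨hn, hx⟩
        rw [h2, measureReal_eq_zero_iff] at h1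
        rw [ae_iff]
        refine measure_mono_null (fun ω hω => ?_) h1
        simp only [Set.mem_ofPred_eq, Classical.not_imp, not_not] at hω
        exact ⟨hω.1, hω.2.2⟩
      · exact Eventually.of_forall (fun ω _ h => absurd h hn)
    -- no long natural runs
    obtain ⟨Gd, hGd⟩ : ∃ Gd : ℕ → Prop, Gd = fun n => y (bl y n) + gw κ c y (bl y n) + hn κ c n ≤ n := ⟨_, rfl⟩
    have hnatp : ∀ n, Gd n → μ.real {ω | ∀ m ∈ Ico (n - hn κ c n) n, m ∉ A ω} ≤ (1 - p n) ^ hn κ c n := by
      intro n hG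
      rw [hGd] at hG
      have h1 := hM.law (Ico (n - hn κ c n) n) ∅ Set.univ MeasurableSet.univ
      have h2 : {ω | ∀ m ∈ Ico (n - hn κ c n) n, (m ∈ A ω ↔ m ∈ (∅ : Finset ℕ))} ∩ π ⁻¹' Set.univ =
          {ω | ∀ m ∈ Ico (n - hn κ c n) n, m ∉ A ω} := by
        ext ω
        simp
      rw [h2] at h1
      rw [h1]
      have h3 : ∀ z : X, bern (r z) (Ico (n - hn κ c n) n) ∅ ≤ (1 - p n) ^ hn κ c n := by
        intro z
        have h4 : ∀ m ∈ Ico (n - hn κ c n) n, (if m ∈ (∅ : Finset ℕ) then r z m else 1 - r z m) ≤ 1 - p n := by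
          intro m hm
          rw [mem_Ico] at hm
          rw [if_neg (notMem_empty m)]
          have h5 : bl y m = bl y n := by
            refine bl_eq hy (fun _ => ?_) (lt_trans hm.2 (lt_bl hy n))
            omega
          have h6 : r z m = p m := by
            simp only [hr]
            rw [if_neg]
            rintro ⟨h7, -⟩
            rw [hwin] at h7
            rw [h5] at h7
            omega
          rw [h6]
          have := hp.anti hm.2.le
          linarith
        have h7 : (Ico (n - hn κ c n) n).card = hn κ c n := by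
          rw [Nat.card_Ico]
          omega
        unfold bern
        calc ∏ m ∈ Ico (n - hn κ c n) n, (if m ∈ (∅ : Finset ℕ) then r z m else 1 - r z m)
            ≤ ∏ _m ∈ Ico (n - hn κ c n) n, (1 - p n) := by
              refine prod_le_prod (fun m _ => ?_) h4
              rw [if_neg (notMem_empty m)]
              linarith [(hr01 z m).2]
          _ = (1 - p n) ^ hn κ c n := by rw [prod_const, h7]
      have h4 : 0 ≤ (1 - p n) ^ hn κ c n := pow_nonneg (by linarith [hp.lt_one n]) _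
      rw [Measure.restrict_univ]
      have h5 : ∫ z, bern (r z) (Ico (n - hn κ c n) n) ∅ ∂ν ≤ ∫ _z : X, (1 - p n) ^ hn κ c n ∂ν := by
        refine integral_mono_of_nonneg (Eventually.of_forall (fun z => ?_)) (integrable_const _) (Eventually.of_forall h3)
        unfold bern
        refine prod_nonneg (fun m _ => ?_)
        split_ifs
        · exact (hr01 z m).1
        · linarith [(hr01 z m).2]
      refine h5.trans (le_of_eq ?_)
      simp
    have hnat : ∀ᵐ ω ∂μ, ∀ᶠ n : ℕ in atTop, Gd n → ∃ m, n - hn κ c n ≤ m ∧ m < n ∧ m ∈ A ω := by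
      have hsum : ∑' n : ℕ, μ {ω | Gd n ∧ ∀ m ∈ Ico (n - hn κ c n) n, m ∉ A ω} ≠ ⊤ := by
        have h1 : Summable (fun n : ℕ => μ.real {ω | Gd n ∧ ∀ m ∈ Ico (n - hn κ c n) n, m ∉ A ω}) := by
          have h2 : Summable (fun n : ℕ => (n : ℝ) ^ (-(3 / 2 : ℝ))) := Real.summable_nat_rpow.2 (by norm_num)
          refine Summable.of_norm_bounded_eventually_nat h2 ?_
          filter_upwards [nat_prob hκ hc hp] with n h3
          rw [Real.norm_eq_abs, abs_of_nonneg measureReal_nonneg]
          refine le_trans ?_ h3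
          by_cases hG : Gd n
          · refine le_trans (measureReal_mono ?_) (hnatp n hG)
            intro ω hω
            exact hω.2
          · have : {ω | Gd n ∧ ∀ m ∈ Ico (n - hn κ c n) n, m ∉ A ω} = ∅ := by
              ext ω
              simp [hG]
            rw [this]
            simp only [measureReal_empty]
            exact pow_nonneg (by linarith [hp.lt_one n]) _
        have h3 : ∀ n, μ {ω | Gd n ∧ ∀ m ∈ Ico (n - hn κ c n) n, m ∉ A ω} =
            ENNReal.ofReal (μ.real {ω | Gd n ∧ ∀ m ∈ Ico (n - hn κ c n) n, m ∉ A ω}) := fun n =>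
          (ENNReal.ofReal_toReal (measure_ne_top _ _)).symm
        rw [tsum_congr h3, ← ENNReal.ofReal_tsum_of_nonneg (fun n => measureReal_nonneg) h1]
        exact ENNReal.ofReal_ne_top
      filter_upwards [ae_eventually_notMem hsum] with ω hω
      filter_upwards [hω] with n h1 h2
      by_contra hcon
      push Not at hcon
      apply h1
      refine ⟨h2, fun m hm => ?_⟩
      rw [mem_Ico] at hm
      exact hcon m hm.1 hm.2
    filter_upwards [hinf', hnull, hnat] with ω h1 h2 h3
    -- the block of a switch, for large `j`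
    obtain ⟨N₀, hN₀⟩ := eventually_atTop.1 h3
    have hev : ∀ᶠ j : ℕ in atTop, y j + gw κ c y j ≤ y (j + 1) ∧ N₀ ≤ y j ∧ 1 ≤ j :=
      (gw_lt hκ hc hy3 hl1 hl2).and ((hyt.eventually_ge_atTop N₀).and (eventually_ge_atTop 1))
    have hwinj : ∀ j, j ∈ Ξ (π ω) → 1 ≤ j → y j + gw κ c y j ≤ y (j + 1) →
        ∀ m, y j ≤ m → m < y j + gw κ c y j → m ∉ A ω := by
      intro j hj hj1 hj2 m hm1 hm2 hm3
      have h4 : bl y m = j := bl_eq hy (fun _ => hm1) (by omega)
      refine h2 m hm3 ?_ (by rw [h4]; exact hj)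
      rw [hwin]
      simp only
      rw [h4]
      exact hm2
    have hfre : ∃ᶠ j : ℕ in atTop, recS (A ω) (y (j + 1)) ≤ recS (A ω) (y j) + 1 ∧ gw κ c y j ≤ mx (A ω) (y (j + 1)) := by
      refine (h1.and_eventually hev).mono ?_
      rintro j ⟨hj, hj1, hj2, hj3⟩
      have hw := hwinj j hj hj3 hj1
      constructor
      · refine rec_step (g := gw κ c y j) (h := hn κ c) hw (fun n hn' => hn_le_gw hκ hc hn') ?_
        intro n hn1 hn2
        have h4 : bl y n = j := bl_eq hy (fun _ => by omega) hn2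
        refine hN₀ n (by omega) ?_
        rw [hGd]
        simp only
        rw [h4]
        exact hn1
      · exact le_mx_iff.2 ⟨y j, hj1, fun m hm1 hm2 => hw m hm1 hm2⟩
    constructor
    · -- the number of record gaps
      intro hlim
      have hlog : Tendsto (fun j : ℕ => Real.log (y (j + 1)) / Real.log (y j)) atTop (𝓝 2) := by
        have e1 : Tendsto (fun j : ℕ => (2 : ℝ) ^ j) atTop atTop := tendsto_pow_atTop_atTop_of_one_lt (by norm_num)
        have e2 : Tendsto (fun j : ℕ => 2 - 6 / (2 : ℝ) ^ j) atTop (𝓝 (2 - 0)) :=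
          tendsto_const_nhds.sub (tendsto_const_nhds.div_atTop e1)
        have e3 : Tendsto (fun j : ℕ => 2 + 3 / (2 : ℝ) ^ j) atTop (𝓝 (2 + 0)) :=
          tendsto_const_nhds.add (tendsto_const_nhds.div_atTop e1)
        rw [sub_zero] at e2
        rw [add_zero] at e3
        refine tendsto_of_tendsto_of_tendsto_of_le_of_le e2 e3 ?_ ?_
        · intro j
          have a1 := hl1 j
          have a2 := hl2 j
          have a3 := hl1 (j + 1)
          have a4 : (0 : ℝ) < 2 ^ j := by positivity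
          simp only
          rw [le_div_iff₀ (by linarith)]
          rw [pow_succ] at a3
          have a5 : (2 - 6 / (2 : ℝ) ^ j) * Real.log (y j) = 2 * Real.log (y j) - 6 * (Real.log (y j) / 2 ^ j) := by ring
          rw [a5]
          have a6 : 1 ≤ Real.log (y j) / 2 ^ j := by
            rw [one_le_div a4]
            exact a1
          linarith
        · intro j
          have a1 := hl1 j
          have a4 : (0 : ℝ) < 2 ^ j := by positivity
          have a3 := hl2 (j + 1)
          simp only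
          rw [div_le_iff₀ (by linarith)]
          rw [pow_succ] at a3
          have a5 : (2 + 3 / (2 : ℝ) ^ j) * Real.log (y j) = 2 * Real.log (y j) + 3 * (Real.log (y j) / 2 ^ j) := by ring
          rw [a5]
          have a6 : 1 ≤ Real.log (y j) / 2 ^ j := by
            rw [one_le_div a4]
            exact a1
          linarith
      have hK : 0 < κ + 1 := by linarith
      have l1 : Tendsto (fun j : ℕ => (recS (A ω) (y j) : ℝ) / Real.log (y j)) atTop (𝓝 (κ + 1)) := hlim.comp hyt
      have l2 : Tendsto (fun j : ℕ => (recS (A ω) (y (j + 1)) : ℝ) / Real.log (y (j + 1))) atTop (𝓝 (κ + 1)) :=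
        hlim.comp (hyt.comp (tendsto_add_atTop_nat 1))
      have l3 := l2.mul hlog
      have l4 : Tendsto (fun j : ℕ => 1 / Real.log (y j)) atTop (𝓝 0) :=
        tendsto_const_nhds.div_atTop (log_tendsto.comp hyt)
      have l5 := l1.add l4
      rw [add_zero] at l5
      have l6 := l3.sub l5
      have l7 : (κ + 1) * 2 - (κ + 1) = κ + 1 := by ring
      rw [l7] at l6
      have l8 := l6.eventually (lt_mem_nhds hK)
      obtain ⟨j, hj, hj2⟩ := (hfre.and_eventually l8).exists
      have a1 := hl1 j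
      have a4 : (0 : ℝ) < 2 ^ j := by positivity
      have a5 : 0 < Real.log (y j) := by linarith
      have a6 : 0 < Real.log (y (j + 1)) := by
        have := hl1 (j + 1)
        have h : (0 : ℝ) < 2 ^ (j + 1) := by positivity
        linarith
      have a7 : (recS (A ω) (y (j + 1)) : ℝ) / Real.log (y (j + 1)) * (Real.log (y (j + 1)) / Real.log (y j)) =
          (recS (A ω) (y (j + 1)) : ℝ) / Real.log (y j) := by
        field_simp
      have a8 : (recS (A ω) (y j) : ℝ) / Real.log (y j) + 1 / Real.log (y j) = ((recS (A ω) (y j) : ℝ) + 1) / Real.log (y j) := by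
        rw [add_div]
      rw [a7, a8] at hj2
      have a9 : (recS (A ω) (y (j + 1)) : ℝ) ≤ (recS (A ω) (y j) : ℝ) + 1 := by exact_mod_cast hj.1
      have a10 := div_le_div_of_nonneg_right a9 a5.le
      linarith
    · -- the longest run
      intro hlim
      have l2 : Tendsto (fun j : ℕ => (mx (A ω) (y (j + 1)) : ℝ) / b0 κ c (y (j + 1))) atTop (𝓝 1) :=
        hlim.comp (hyt.comp (tendsto_add_atTop_nat 1))
      have l3 := l2.eventually (gt_mem_nhds (show (1 : ℝ) < 2 by norm_num))
      obtain ⟨j, hj, hj2⟩ := (hfre.and_eventually l3).exists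
      have a6 : 0 < Real.log (y (j + 1)) := by
        have := hl1 (j + 1)
        have h : (0 : ℝ) < 2 ^ (j + 1) := by positivity
        linarith
      have a7 : 0 < b0 κ c (y (j + 1)) := by
        unfold b0
        positivity
      rw [div_lt_iff₀ a7] at hj2
      have a8 : 3 * b0 κ c (y (j + 1)) ≤ gw κ c y j := Nat.le_ceil _
      have a9 : (gw κ c y j : ℝ) ≤ mx (A ω) (y (j + 1)) := by exact_mod_cast hj.2
      linarith

end Pool.Agent.Q198.RC
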